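import Mathlib

/-!
# The equality case of the non-symmetric Mahler inequality: definitions and statements (helper537)

Notation: `C` closed convex cone with interior in `ℝᴺ = Fin N → ℝ`, `dl C` its dual,
`T C e = {x ∈ C | ⟨x, e⟩ ≤ 1}`, `HT C e u = conv((1-u) T ∪ -u T)`, `OI C c = C ∩ (c - C)`.
All statements are `Prop`s `S_XXX`.
-/

set_option autoImplicit false

open MeasureTheory Set
open scoped ENNReal Pointwise Matrix

namespace Pool.Agent.TH537.EQ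

/-- closed convex cones with interior points -/
structure CN {N : ℕ} (C : Set (Fin N → ℝ)) : Prop where
  closed : IsClosed C
  convex : Convex ℝ C
  smul : ∀ t : ℝ, 0 ≤ t → ∀ x ∈ C, t • x ∈ C
  int : (interior C).Nonempty

/-- `e` is positive on `C ∖ {0}` (so that `C` is pointed) -/
def Pos {N : ℕ} (C : Set (Fin N → ℝ)) (e : Fin N → ℝ) : Prop := ∀ x ∈ C, x ≠ 0 → 0 < x ⬝ᵥ e

/-- the truncated cone -/
def T {N : ℕ} (C : Set (Fin N → ℝ)) (e : Fin N → ℝ) : Set (Fin N → ℝ) := {x | x ∈ C ∧ x ⬝ᵥ e ≤ 1}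

/-- `conv((1-u) T ∪ -u T)` -/
def HT {N : ℕ} (C : Set (Fin N → ℝ)) (e : Fin N → ℝ) (u : ℝ) : Set (Fin N → ℝ) :=
  convexHull ℝ ((1 - u) • T C e ∪ (-u) • T C e)

/-- the dual cone -/
def dl {N : ℕ} (C : Set (Fin N → ℝ)) : Set (Fin N → ℝ) := {y | ∀ x ∈ C, 0 ≤ x ⬝ᵥ y}

/-- the order interval `[0, c]` -/
def OI {N : ℕ} (C : Set (Fin N → ℝ)) (c : Fin N → ℝ) : Set (Fin N → ℝ) := {x | x ∈ C ∧ c - x ∈ C}

/-- simplicial cones -/
def Simp {N : ℕ} (C : Set (Fin N → ℝ)) : Prop :=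
  ∃ b : Fin N → (Fin N → ℝ), LinearIndependent ℝ b ∧
    C = {x | ∃ t : Fin N → ℝ, (∀ i, 0 ≤ t i) ∧ x = ∑ i, t i • b i}

/-- lattice cones -/
def Lat {N : ℕ} (C : Set (Fin N → ℝ)) : Prop :=
  ∀ z : Fin N → ℝ, ∃ a : Fin N → ℝ, ∀ x, (x ∈ C ∧ x - z ∈ C) ↔ x - a ∈ C

/-- (LC) closed lattice cones are simplicial -/
def S_LC : Prop := ∀ (N : ℕ) (C : Set (Fin N → ℝ)) (e : Fin N → ℝ), CN C → Pos C e → Lat C → Simp C

/-- (RS) equality in the Rogers–Shephard inequality for a cone -/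
def S_RS : Prop := ∀ (N : ℕ) (C : Set (Fin N → ℝ)) (e : Fin N → ℝ), CN C → Pos C e →
  volume (T C e) ≤ volume (HT C e (1 / 2)) → Lat C

/-- (E2C) cone form of the inequality `2^n/n! ≤ |K ∩ -K| |conv((1-f) K° ∪ -f K°)|` -/
def S_E2C : Prop := ∀ (N : ℕ) (C : Set (Fin N → ℝ)) (e c : Fin N → ℝ) (u : ℝ), CN C → Pos C e →
  c ∈ interior C → 0 < u → u < 1 →
  1 ≤ (N.factorial : ℝ) * (volume.real (OI C c) * volume.real (HT (dl C) c u))

/-- (DU) duality -/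
def S_DU : Prop := ∀ (N : ℕ) (C : Set (Fin N → ℝ)) (e c : Fin N → ℝ), CN C → Pos C e →
  c ∈ interior C → CN (dl C) ∧ Pos (dl C) c ∧ e ∈ interior (dl C) ∧ dl (dl C) = C

/-- a convex body with the origin in its interior (the same as `H801NS.NB`) -/
structure NB {m : ℕ} (K : Set (Fin m → ℝ)) : Prop where
  comp : IsCompact K
  conv : Convex ℝ K
  zero : (0 : Fin m → ℝ) ∈ interior K

/-- `conv((1-u) K ∪ -u K)` -/
def HU {m : ℕ} (K : Set (Fin m → ℝ)) (u : ℝ) : Set (Fin m → ℝ) :=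
  convexHull ℝ ((1 - u) • K ∪ (-u) • K)

/-- `{x | ‖x‖_K + ‖-x‖_K ≤ 1}` -/
def HH {m : ℕ} (K : Set (Fin m → ℝ)) : Set (Fin m → ℝ) := {x | gauge K x + gauge K (-x) ≤ 1}

/-- (SEC) sections of cones -/
def S_SEC : Prop := ∀ (k : ℕ) (C : Set (Fin (k + 1) → ℝ)) (e c : Fin (k + 1) → ℝ), CN C →
  Pos C e → c ∈ interior C → c ⬝ᵥ e = 1 → ∃ (K : Set (Fin k → ℝ)) (δ : ℝ), NB K ∧ 0 < δ ∧
    volume.real (OI C c) ≤ δ * volume.real (HH K) ∧
    (k + 1) * volume.real (T C e) = δ * volume.real K ∧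
    ∀ u : ℝ, 0 ≤ u → u ≤ 1 → volume.real (HT C e u) ≤ δ * volume.real (HU K u)

/-- (POW) powers of cones -/
def S_POW : Prop := ∀ (N m : ℕ) (C : Set (Fin N → ℝ)) (e c : Fin N → ℝ), CN C → Pos C e →
  c ∈ interior C → ∃ (D : Set (Fin (m * N) → ℝ)) (f d : Fin (m * N) → ℝ), CN D ∧ Pos D f ∧
    d ∈ interior D ∧ d ⬝ᵥ f = m * (c ⬝ᵥ e) ∧ volume.real (OI D d) = volume.real (OI C c) ^ m ∧
    (m * N).factorial * volume.real (T D f) = (N.factorial * volume.real (T C e)) ^ m ∧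
    ∀ u : ℝ, 0 ≤ u → u ≤ 1 →
      (m * N).factorial * volume.real (HT D f u) = (N.factorial * volume.real (HT C e u)) ^ m

/-- (INB) two-valued form of the averaged inequality for bodies (constant `P k`, e.g. `1`) -/
def S_INB (P : ℕ → ℝ) : Prop := ∀ (k : ℕ) (K : Set (Fin k → ℝ)), NB K → ∀ (a b t : ℝ), 0 < t →
  t < 1 → 0 < a → a ≤ b → (∀ u : ℝ, 0 < u → u < 1 → a ≤ volume.real (HU K u)) →
  (∀ u : ℝ, 0 < u → u < t → b ≤ volume.real (HU K u)) →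
  volume.real (HH K) * (a ^ (1 - t) * b ^ t) ≤ P k * Real.exp (-k) * volume.real K ^ 2

/-- (INC) two-valued form of the averaged inequality for cones -/
def S_INC : Prop := ∀ (N : ℕ) (C : Set (Fin N → ℝ)) (e c : Fin N → ℝ), 1 ≤ N → CN C → Pos C e →
  c ∈ interior C → c ⬝ᵥ e = 1 → ∀ (a b t : ℝ), 0 < t → t < 1 → 0 < a → a ≤ b →
  (∀ u : ℝ, 0 < u → u < 1 → a ≤ N.factorial * volume.real (HT C e u)) →
  (∀ u : ℝ, 0 < u → u < t → b ≤ N.factorial * volume.real (HT C e u)) →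
  (N : ℝ) ^ N * (volume.real (OI C c) * (a ^ (1 - t) * b ^ t)) ≤
    (N.factorial * volume.real (T C e)) ^ 2

/-- (EQC) Mahler's inequality for cones with the case of equality -/
def S_EQC : Prop := ∀ (N : ℕ) (C : Set (Fin N → ℝ)) (e c : Fin N → ℝ), 1 ≤ N → CN C → Pos C e →
  c ∈ interior C → c ⬝ᵥ e = 1 →
  (N : ℝ) ^ N ≤ (N.factorial * volume.real (T C e)) * (N.factorial * volume.real (T (dl C) c)) ∧
  ((N.factorial * volume.real (T C e)) * (N.factorial * volume.real (T (dl C) c)) = (N : ℝ) ^ N →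
    Simp C)

/-- (SIM) simplicial cones -/
def S_SIM : Prop := ∀ (N : ℕ) (C : Set (Fin N → ℝ)) (e c : Fin N → ℝ), 1 ≤ N → CN C → Pos C e →
  c ∈ interior C → c ⬝ᵥ e = 1 → Simp C → ∃ (b : Fin N → (Fin N → ℝ)) (t : Fin N → ℝ),
    LinearIndependent ℝ b ∧ C = {x | ∃ s : Fin N → ℝ, (∀ i, 0 ≤ s i) ∧ x = ∑ i, s i • b i} ∧
    (∀ i, b i ⬝ᵥ e = 1) ∧ (∀ i, 0 < t i) ∧ ∑ i, t i = 1 ∧ c = ∑ i, t i • b i ∧
    (N.factorial * volume.real (T C e)) * (N.factorial * volume.real (T (dl C) c)) =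
      (∏ i, t i)⁻¹

end Pool.Agent.TH537.EQ
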