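import Pool.Agent.TH537.EQ.Basic

/-!
# Cones over bodies
-/

set_option autoImplicit false

open MeasureTheory Set Filter Topology
open scoped ENNReal Pointwise Matrix

namespace Pool.Agent.TH537.EQ

variable {n : ℕ}

/-- the functional `x ↦ x 0` -/
def e0 (n : ℕ) : Fin (n + 1) → ℝ := Pi.single 0 1

/-- the cone over `L × {1}` -/
def Cn (L : Set (Fin n → ℝ)) : Set (Fin (n + 1) → ℝ) := {x | gauge L (Fin.tail x) ≤ x 0}

/-- the polar body -/
def pol (L : Set (Fin n → ℝ)) : Set (Fin n → ℝ) := {y | ∀ x ∈ L, x ⬝ᵥ y ≤ 1}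

lemma dot_e0 (x : Fin (n + 1) → ℝ) : x ⬝ᵥ e0 n = x 0 := by
  unfold e0
  rw [dotProduct_single, mul_one]

lemma dot_succ (x y : Fin (n + 1) → ℝ) :
    x ⬝ᵥ y = x 0 * y 0 + Fin.tail x ⬝ᵥ Fin.tail y := by
  unfold dotProduct
  rw [Fin.sum_univ_succ]
  rfl

lemma NB.nhds {L : Set (Fin n → ℝ)} (hL : NB L) : L ∈ 𝓝 (0 : Fin n → ℝ) :=
  mem_interior_iff_mem_nhds.1 hL.zero

lemma NB.gauge_cont {L : Set (Fin n → ℝ)} (hL : NB L) : Continuous (gauge L) :=
  continuous_gauge hL.conv hL.nhds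

lemma tail_cont : Continuous (Fin.tail : (Fin (n + 1) → ℝ) → (Fin n → ℝ)) :=
  continuous_pi fun _ => continuous_apply _

lemma tail_smul (t : ℝ) (x : Fin (n + 1) → ℝ) : Fin.tail (t • x) = t • Fin.tail x := rfl

lemma tail_add (x y : Fin (n + 1) → ℝ) : Fin.tail (x + y) = Fin.tail x + Fin.tail y := rfl

lemma NB.gauge_le {L : Set (Fin n → ℝ)} (hL : NB L) {s : ℝ} (hs : 0 < s) {y : Fin n → ℝ} :
    gauge L y ≤ s ↔ y ∈ s • L := by
  rw [mem_smul_set_iff_inv_smul_mem₀ hs.ne']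
  have h1 : gauge L (s⁻¹ • y) ≤ 1 ↔ s⁻¹ • y ∈ L := by
    rw [gauge_le_one_iff_mem_closure hL.conv hL.nhds, hL.comp.isClosed.closure_eq]
  rw [← h1, gauge_smul_of_nonneg (inv_nonneg.2 hs.le), smul_eq_mul, inv_mul_le_iff₀ hs, mul_one]

lemma NB.gauge_zero {L : Set (Fin n → ℝ)} (hL : NB L) {y : Fin n → ℝ} (h : gauge L y ≤ 0) :
    y = 0 := by
  have h0 : gauge L y = 0 := le_antisymm h (gauge_nonneg y)
  exact (gauge_eq_zero (absorbent_nhds_zero hL.nhds)
    ((NormedSpace.isVonNBounded_iff ℝ).2 hL.comp.isBounded)).1 h0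

lemma Cn_CN {L : Set (Fin n → ℝ)} (hL : NB L) : CN (Cn L) where
  closed := isClosed_le (hL.gauge_cont.comp tail_cont) (continuous_apply 0)
  convex := by
    intro x hx y hy a b ha hb _
    have hx' : gauge L (Fin.tail x) ≤ x 0 := hx
    have hy' : gauge L (Fin.tail y) ≤ y 0 := hy
    show gauge L (Fin.tail (a • x + b • y)) ≤ (a • x + b • y) 0
    rw [tail_add, tail_smul, tail_smul]
    calc gauge L (a • Fin.tail x + b • Fin.tail y)
        ≤ gauge L (a • Fin.tail x) + gauge L (b • Fin.tail y) :=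
          gauge_add_le hL.conv (absorbent_nhds_zero hL.nhds) _ _
      _ = a * gauge L (Fin.tail x) + b * gauge L (Fin.tail y) := by
          rw [gauge_smul_of_nonneg ha, gauge_smul_of_nonneg hb, smul_eq_mul, smul_eq_mul]
      _ ≤ a * x 0 + b * y 0 := by gcongr
      _ = _ := rfl
  smul := by
    intro t ht x hx
    have hx' : gauge L (Fin.tail x) ≤ x 0 := hx
    show gauge L (Fin.tail (t • x)) ≤ (t • x) 0
    rw [tail_smul, gauge_smul_of_nonneg ht, smul_eq_mul]
    show t * gauge L (Fin.tail x) ≤ t * x 0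
    gcongr
  int := by
    refine ⟨e0 n, mem_interior.2 ⟨{x | gauge L (Fin.tail x) < x 0},
      fun x (hx : gauge L (Fin.tail x) < x 0) => (show gauge L (Fin.tail x) ≤ x 0 from hx.le),
      isOpen_lt (hL.gauge_cont.comp tail_cont) (continuous_apply 0), ?_⟩⟩
    have h1 : Fin.tail (e0 n) = 0 := by
      funext i
      simp [Fin.tail, e0]
    show gauge L (Fin.tail (e0 n)) < e0 n 0
    rw [h1, _root_.gauge_zero]
    simp [e0]

lemma e0_int {L : Set (Fin n → ℝ)} (hL : NB L) : e0 n ∈ interior (Cn L) := by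
  refine mem_interior.2 ⟨{x | gauge L (Fin.tail x) < x 0},
      fun x (hx : gauge L (Fin.tail x) < x 0) => (show gauge L (Fin.tail x) ≤ x 0 from hx.le),
    isOpen_lt (hL.gauge_cont.comp tail_cont) (continuous_apply 0), ?_⟩
  have h1 : Fin.tail (e0 n) = 0 := by
    funext i
    simp [Fin.tail, e0]
  show gauge L (Fin.tail (e0 n)) < e0 n 0
  rw [h1, _root_.gauge_zero]
  simp [e0]

lemma Cn_Pos {L : Set (Fin n → ℝ)} (hL : NB L) : Pos (Cn L) (e0 n) := by
  intro x hx hx0
  have hx' : gauge L (Fin.tail x) ≤ x 0 := hx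
  rw [dot_e0]
  have h0 : 0 ≤ x 0 := (gauge_nonneg _).trans hx'
  rcases h0.eq_or_lt with h | h
  · exfalso
    apply hx0
    rw [← h] at hx'
    have h1 := hL.gauge_zero hx'
    funext i
    refine Fin.cases ?_ (fun j => ?_) i
    · exact h.symm
    · exact congrFun h1 j
  · exact h

lemma e0_dot : e0 n ⬝ᵥ e0 n = 1 := by
  rw [dot_e0]
  simp [e0]

/-- volumes by slices -/
lemma vol_slices {S : Set (Fin (n + 1) → ℝ)} (hS : MeasurableSet S) {M : Set (Fin n → ℝ)}
    (h1 : ∀ s : ℝ, 0 < s → s ≤ 1 → {y : Fin n → ℝ | (Fin.cons s y : Fin (n + 1) → ℝ) ∈ S} = s • M)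
    (h2 : ∀ s : ℝ, s < 0 ∨ 1 < s → {y : Fin n → ℝ | (Fin.cons s y : Fin (n + 1) → ℝ) ∈ S} = ∅) :
    volume S = ENNReal.ofReal (1 / (n + 1)) * volume M := by
  have hmp := (volume_preserving_piFinSuccAbove (fun _ : Fin (n + 1) => ℝ) 0).symm
  rw [← hmp.measure_preimage_equiv, Measure.volume_eq_prod,
    Measure.prod_apply (hmp.measurable hS)]
  have e1 : ∀ s : ℝ, Prod.mk s ⁻¹' (⇑(MeasurableEquiv.piFinSuccAbove
      (fun _ : Fin (n + 1) => ℝ) 0).symm ⁻¹' S) =
      {y : Fin n → ℝ | (Fin.cons s y : Fin (n + 1) → ℝ) ∈ S} := by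
    intro s
    ext y
    simp only [mem_preimage, mem_ofPred_eq]
    have : (MeasurableEquiv.piFinSuccAbove (fun _ : Fin (n + 1) => ℝ) 0).symm (s, y) =
        (Fin.cons s y : Fin (n + 1) → ℝ) := by
      funext i
      refine Fin.cases ?_ (fun j => ?_) i
      · simp [MeasurableEquiv.piFinSuccAbove_symm_apply]
      · simp [MeasurableEquiv.piFinSuccAbove_symm_apply]
    rw [this]
  simp_rw [e1]
  have e2 : ∀ᵐ s : ℝ, volume {y : Fin n → ℝ | (Fin.cons s y : Fin (n + 1) → ℝ) ∈ S} =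
      (Ioc (0:ℝ) 1).indicator (fun s => ENNReal.ofReal (s ^ n) * volume M) s := by
    have h0 : ∀ᵐ s : ℝ, s ≠ 0 := by
      rw [ae_iff]
      simp
    filter_upwards [h0] with s hs
    by_cases hm : s ∈ Ioc (0:ℝ) 1
    · rw [indicator_of_mem hm, h1 s hm.1 hm.2, Measure.addHaar_smul, Module.finrank_pi,
        Fintype.card_fin, abs_of_pos (pow_pos hm.1 n)]
    · rw [indicator_of_notMem hm, h2 s, measure_empty]
      by_contra hcon
      push Not at hcon
      exact hm ⟨lt_of_le_of_ne hcon.1 (Ne.symm hs), hcon.2⟩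
  rw [lintegral_congr_ae e2, lintegral_indicator measurableSet_Ioc, lintegral_mul_const]
  · congr 1
    have hi : IntegrableOn (fun s : ℝ => s ^ n) (Ioc 0 1) := by
      have : Continuous fun s : ℝ => s ^ n := by fun_prop
      exact (this.continuousOn.integrableOn_Icc (a := 0) (b := 1)).mono_set Ioc_subset_Icc_self
    rw [← ofReal_integral_eq_lintegral_ofReal hi
      ((ae_restrict_iff' measurableSet_Ioc).2 (Eventually.of_forall fun s hs => by
        have := hs.1
        show (0:ℝ) ≤ s ^ n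
        positivity)), ← intervalIntegral.integral_of_le zero_le_one, integral_pow]
    congr 1
    simp
  · fun_prop

lemma vol_T_Cn {L : Set (Fin n → ℝ)} (hL : NB L) :
    volume (T (Cn L) (e0 n)) = ENNReal.ofReal (1 / (n + 1)) * volume L := by
  refine vol_slices (T_compact (Cn_CN hL) (Cn_Pos hL)).measurableSet (fun s hs hs1 => ?_)
    fun s hs => ?_
  · ext y
    rw [← hL.gauge_le hs]
    show ((Fin.cons s y : Fin (n + 1) → ℝ) ∈ T (Cn L) (e0 n)) ↔ _
    unfold T Cn
    simp only [mem_ofPred_eq, dot_e0, Fin.cons_zero, Fin.tail_cons]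
    exact ⟨fun h => h.1, fun h => ⟨h, hs1⟩⟩
  · ext y
    simp only [mem_ofPred_eq, mem_empty_iff_false, iff_false]
    unfold T Cn
    simp only [mem_ofPred_eq, dot_e0, Fin.cons_zero, Fin.tail_cons, not_and, not_le]
    intro h
    rcases hs with hs | hs
    · exact absurd ((gauge_nonneg y).trans h) (not_le.2 hs)
    · exact hs

lemma mem_dl_Cn {L : Set (Fin n → ℝ)} (hL : NB L) (w : Fin (n + 1) → ℝ) :
    w ∈ dl (Cn L) ↔ 0 ≤ w 0 ∧ ∀ x ∈ L, 0 ≤ w 0 + x ⬝ᵥ Fin.tail w := by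
  constructor
  · intro h
    refine ⟨?_, fun x hx => ?_⟩
    · have := h _ (interior_subset (e0_int hL))
      rwa [dotProduct_comm, dot_e0] at this
    · have h1 : (Fin.cons 1 x : Fin (n + 1) → ℝ) ∈ Cn L := by
        show gauge L (Fin.tail (Fin.cons 1 x : Fin (n + 1) → ℝ)) ≤
          (Fin.cons 1 x : Fin (n + 1) → ℝ) 0
        rw [Fin.tail_cons, Fin.cons_zero]
        exact gauge_le_one_of_mem hx
      have h2 := h _ h1
      rwa [dot_succ, Fin.tail_cons, Fin.cons_zero, one_mul] at h2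
  · rintro ⟨h0, h⟩ x hx
    have hx' : gauge L (Fin.tail x) ≤ x 0 := hx
    have hx0 : 0 ≤ x 0 := (gauge_nonneg _).trans hx'
    rw [dot_succ]
    rcases hx0.eq_or_lt with h1 | h1
    · rw [← h1] at hx'
      rw [hL.gauge_zero hx', ← h1, zero_dotProduct]
      simp
    · obtain ⟨y, hy, hyx⟩ := (hL.gauge_le h1).1 hx'
      have h2 := h y hy
      have h3 : Fin.tail x = x 0 • y := hyx.symm
      rw [h3, smul_dotProduct, smul_eq_mul, ← mul_add]
      exact mul_nonneg hx0 h2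

lemma dl_closed (C : Set (Fin n → ℝ)) : IsClosed (dl C) := by
  have : dl C = ⋂ x ∈ C, {y : Fin n → ℝ | 0 ≤ x ⬝ᵥ y} := by
    ext y; simp [dl]
  rw [this]
  refine isClosed_biInter fun x _ => isClosed_le continuous_const ?_
  unfold dotProduct; fun_prop

lemma vol_T_dl {L : Set (Fin n → ℝ)} (hL : NB L) :
    volume (T (dl (Cn L)) (e0 n)) = ENNReal.ofReal (1 / (n + 1)) * volume (pol L) := by
  have hneg : volume (pol L) = volume (-pol L) := (Measure.measure_neg volume _).symm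
  rw [hneg]
  refine vol_slices ((dl_closed _).inter
    (isClosed_le (dot_cont (e0 n)) continuous_const)).measurableSet (fun s hs hs1 => ?_)
    fun s hs => ?_
  · ext y
    rw [mem_smul_set_iff_inv_smul_mem₀ hs.ne', Set.mem_neg]
    show (Fin.cons s y ∈ dl (Cn L) ∧ (Fin.cons s y : Fin (n + 1) → ℝ) ⬝ᵥ e0 n ≤ 1) ↔ _
    rw [mem_dl_Cn hL, dot_e0, Fin.cons_zero, Fin.tail_cons]
    have key : (∀ x ∈ L, 0 ≤ s + x ⬝ᵥ y) ↔ -(s⁻¹ • y) ∈ pol L := by
      unfold pol
      simp only [mem_ofPred_eq, dotProduct_neg, dotProduct_smul, smul_eq_mul]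
      refine forall_congr' fun x => imp_congr_right fun _ => ?_
      rw [← mul_neg, inv_mul_le_iff₀ hs, mul_one]
      constructor <;> intro h <;> linarith
    constructor
    · intro h
      exact key.1 h.1.2
    · intro h
      exact ⟨⟨hs.le, key.2 h⟩, hs1⟩
  · ext y
    simp only [mem_ofPred_eq, mem_empty_iff_false, iff_false]
    show ¬ (Fin.cons s y ∈ dl (Cn L) ∧ (Fin.cons s y : Fin (n + 1) → ℝ) ⬝ᵥ e0 n ≤ 1)
    rw [mem_dl_Cn hL, dot_e0, Fin.cons_zero]
    rintro ⟨⟨h1, -⟩, h2⟩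
    rcases hs with hs | hs <;> linarith

lemma pol_bdd {L : Set (Fin n → ℝ)} (hL : NB L) : Bornology.IsBounded (pol L) := by
  obtain ⟨r, hr, hrL⟩ := Metric.isOpen_iff.1 isOpen_interior _ hL.zero
  refine (Metric.isBounded_closedBall (x := (0 : Fin n → ℝ)) (r := 2 / r)).subset fun y hy => ?_
  rw [mem_closedBall_zero_iff, pi_norm_le_iff_of_nonneg (by positivity)]
  intro i
  have hmem : ∀ t : ℝ, |t| = r / 2 → Pi.single i t ∈ L := by
    intro t ht
    refine interior_subset (hrL ?_)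
    rw [mem_ball_zero_iff, Pi.norm_single, Real.norm_eq_abs, ht]
    linarith
  have h1 := hy _ (hmem (r / 2) (abs_of_pos (by positivity)))
  have h2 := hy _ (hmem (-(r / 2)) (by rw [abs_neg, abs_of_pos (by positivity)]))
  rw [single_dotProduct] at h1 h2
  rw [Real.norm_eq_abs, abs_le]
  have hr2 : 0 < r / 2 := by positivity
  have e1 : r / 2 * y i ≤ 1 := h1
  have e2 : -(r / 2) * y i ≤ 1 := h2
  have e3 : (2 : ℝ) / r = 1 / (r / 2) := by field_simp
  rw [e3]
  constructor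
  · rw [neg_le, div_eq_mul_inv, one_mul, ← one_div, le_div_iff₀ hr2]
    linarith
  · rw [le_div_iff₀ hr2]
    linarith

/-- **Mahler's inequality for bodies, from the one for cones** -/
theorem body (h : S_EQC) {L : Set (Fin n → ℝ)} (hL : NB L) :
    ((n : ℝ) + 1) ^ (n + 1) ≤
      (n.factorial : ℝ) ^ 2 * (volume.real L * volume.real (pol L)) ∧
    ((n.factorial : ℝ) ^ 2 * (volume.real L * volume.real (pol L)) = ((n : ℝ) + 1) ^ (n + 1) →
      Simp (Cn L)) := by
  have h1 := h (n + 1) (Cn L) (e0 n) (e0 n) (by omega) (Cn_CN hL) (Cn_Pos hL) (e0_int hL) e0_dot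
  have hn : (0:ℝ) < (n:ℝ) + 1 := by positivity
  have e1 : volume.real (T (Cn L) (e0 n)) = 1 / (n + 1) * volume.real L := by
    rw [Measure.real, vol_T_Cn hL, ENNReal.toReal_mul, ENNReal.toReal_ofReal (by positivity)]
    rfl
  have e2 : volume.real (T (dl (Cn L)) (e0 n)) = 1 / (n + 1) * volume.real (pol L) := by
    rw [Measure.real, vol_T_dl hL, ENNReal.toReal_mul, ENNReal.toReal_ofReal (by positivity)]
    rfl
  have e3 : ((n + 1).factorial : ℝ) * (1 / (n + 1) * volume.real L) *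
      (((n + 1).factorial : ℝ) * (1 / (n + 1) * volume.real (pol L))) =
      (n.factorial : ℝ) ^ 2 * (volume.real L * volume.real (pol L)) := by
    rw [Nat.factorial_succ]
    push_cast
    field_simp
  rw [e1, e2, e3] at h1
  push_cast at h1
  exact h1

end Pool.Agent.TH537.EQ
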