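import Pool.Agent.TH537.EQ.Eqc
import Pool.Agent.TH537.EQ.Body
import Pool.Agent.TH352.EQ.RS
import Pool.Agent.TH909.EQ.SEC
import Pool.Agent.TH879.EQ.POW
import Pool.Agent.TH388.EQ.DU
import Pool.Agent.TH388.EQ.E2C
import Pool.Agent.TH509.EQ.LC
import Pool.Agent.TH251.MP.INB
import Pool.Agent.TH264.MP.Step
import Pool.Agent.TH264.MP.PLN
import Pool.Agent.TH648.MK.Simp

/-!
# Mahler's inequality for all convex bodies, with the case of equality
-/

set_option autoImplicit false

open MeasureTheory Set Filter Topology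
open scoped ENNReal Pointwise Matrix

namespace Pool.Agent.TH537.EQ

/-- **Mahler's inequality for cones with the case of equality** -/
theorem eqc : S_EQC :=
  t_EQC (t_INC (A := 1) (B := 0) (fun k => by norm_num)
      (Pool.Agent.TH251.MP.t_INB Pool.Agent.TH264.MP.step Pool.Agent.TH264.MP.pln)
      Pool.Agent.TH909.EQ.t_SEC Pool.Agent.TH879.EQ.t_POW)
    Pool.Agent.TH388.EQ.t_E2C Pool.Agent.TH388.EQ.t_DU Pool.Agent.TH352.EQ.t_RS
    Pool.Agent.TH509.EQ.t_LC

variable {n : ℕ}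

lemma Cn_eq {L : Set (Fin n → ℝ)} (hL : NB L) : Cn L = Pool.Agent.TH648.MK.coneOver L := by
  ext x
  constructor
  · intro hx
    have hx' : gauge L (Fin.tail x) ≤ x 0 := hx
    have h0 : 0 ≤ x 0 := (gauge_nonneg _).trans hx'
    rcases h0.eq_or_lt with h | h
    · rw [← h] at hx'
      have h1 := hL.gauge_zero hx'
      refine ⟨0, le_rfl, 0, interior_subset hL.zero, ?_⟩
      funext i
      refine Fin.cases ?_ (fun j => ?_) i
      · simpa using h.symm
      · have h2 : x j.succ = 0 := congrFun h1 j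
        simpa using h2
    · obtain ⟨y, hy, hyx⟩ := (hL.gauge_le h).1 hx'
      refine ⟨x 0, h0, y, hy, ?_⟩
      have h3 : x 0 • y = Fin.tail x := hyx
      rw [h3, Fin.cons_self_tail]
  · rintro ⟨t, ht, y, hy, rfl⟩
    show gauge L (Fin.tail (Fin.cons t (t • y) : Fin (n + 1) → ℝ)) ≤
      (Fin.cons t (t • y) : Fin (n + 1) → ℝ) 0
    rw [Fin.tail_cons, Fin.cons_zero, gauge_smul_of_nonneg ht, smul_eq_mul]
    have := gauge_le_one_of_mem hy
    nlinarith

/-- bodies whose cone is simplicial are simplices -/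
lemma simplex_of_Simp {L : Set (Fin n → ℝ)} (hL : NB L) (h : Simp (Cn L)) :
    ∃ p : Fin (n + 1) → (Fin n → ℝ), AffineIndependent ℝ p ∧ L = convexHull ℝ (range p) := by
  obtain ⟨b, hb, hC⟩ := h
  rw [Cn_eq hL] at hC
  exact Pool.Agent.TH648.MK.simplex_of_coneOver hL.conv b hb hC

/-- **Mahler's inequality, origin inside, with equality** -/
theorem mahler0 {L : Set (Fin n → ℝ)} (hL : NB L) :
    ((n : ℝ) + 1) ^ (n + 1) / (n.factorial : ℝ) ^ 2 ≤ volume.real L * volume.real (pol L) ∧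
    (volume.real L * volume.real (pol L) ≤ ((n : ℝ) + 1) ^ (n + 1) / (n.factorial : ℝ) ^ 2 →
      ∃ p : Fin (n + 1) → (Fin n → ℝ), AffineIndependent ℝ p ∧ L = convexHull ℝ (range p)) := by
  have h := body eqc hL
  have hF : (0:ℝ) < (n.factorial : ℝ) ^ 2 := by positivity
  have h1 : ((n : ℝ) + 1) ^ (n + 1) / (n.factorial : ℝ) ^ 2 ≤
      volume.real L * volume.real (pol L) := by
    rw [div_le_iff₀ hF, mul_comm]
    exact h.1
  refine ⟨h1, fun h2 => simplex_of_Simp hL (h.2 ?_)⟩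
  have h3 := le_antisymm h2 h1
  rw [h3]
  field_simp

/-- the polar body with respect to `z` -/
def plr (K : Set (Fin n → ℝ)) (z : Fin n → ℝ) : Set (Fin n → ℝ) := {y | ∀ x ∈ K, (x - z) ⬝ᵥ y ≤ 1}

lemma NB_sub {K : Set (Fin n → ℝ)} (hc : IsCompact K) (hv : Convex ℝ K) {z : Fin n → ℝ}
    (hz : z ∈ interior K) : NB ((fun x => x - z) '' K) := by
  refine ⟨hc.image (by fun_prop), ?_, ?_⟩
  · have h := hv.translate (-z)
    have e : (fun x : Fin n → ℝ => x - z) = fun x => -z + x := by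
      funext x; abel
    rw [e]
    exact h
  · have h1 : (fun x : Fin n → ℝ => x - z) '' K = (Homeomorph.subRight z) '' K := rfl
    rw [h1, ← (Homeomorph.subRight z).image_interior]
    exact ⟨z, hz, sub_self z⟩

lemma vol_sub (K : Set (Fin n → ℝ)) (z : Fin n → ℝ) :
    volume ((fun x => x - z) '' K) = volume K := by
  have : (fun x : Fin n → ℝ => x - z) '' K = (fun x => x + z) ⁻¹' K := by
    ext x
    simp only [mem_image, mem_preimage]
    constructor
    · rintro ⟨y, hy, rfl⟩; simpa using hy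
    · intro h; exact ⟨x + z, h, by simp⟩
  rw [this, measure_preimage_add_right]

lemma pol_sub (K : Set (Fin n → ℝ)) (z : Fin n → ℝ) : pol ((fun x => x - z) '' K) = plr K z := by
  ext y
  constructor
  · intro h x hx
    exact h _ ⟨x, hx, rfl⟩
  · rintro h _ ⟨x, hx, rfl⟩
    exact h x hx

/-- **Mahler's inequality, any interior point, with equality** -/
theorem mahler {K : Set (Fin n → ℝ)} (hc : IsCompact K) (hv : Convex ℝ K) {z : Fin n → ℝ}
    (hz : z ∈ interior K) :
    ((n : ℝ) + 1) ^ (n + 1) / (n.factorial : ℝ) ^ 2 ≤ volume.real K * volume.real (plr K z) ∧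
    (volume.real K * volume.real (plr K z) ≤ ((n : ℝ) + 1) ^ (n + 1) / (n.factorial : ℝ) ^ 2 →
      ∃ p : Fin (n + 1) → (Fin n → ℝ), AffineIndependent ℝ p ∧ K = convexHull ℝ (range p)) := by
  have h := mahler0 (NB_sub hc hv hz)
  have e1 : volume.real ((fun x => x - z) '' K) = volume.real K := by
    rw [Measure.real, vol_sub]; rfl
  rw [pol_sub, e1] at h
  refine ⟨h.1, fun h2 => ?_⟩
  obtain ⟨p, hp, hK⟩ := h.2 h2
  refine ⟨fun i => p i + z, ?_, ?_⟩
  · have := hp.map' (AffineEquiv.vaddConst ℝ z : (Fin n → ℝ) ≃ᵃ[ℝ] (Fin n → ℝ)).toAffineMap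
      (AffineEquiv.vaddConst ℝ z : (Fin n → ℝ) ≃ᵃ[ℝ] (Fin n → ℝ)).injective
    exact this
  · have h3 : K = (fun x => x + z) '' ((fun x => x - z) '' K) := by
      rw [image_image]
      simp
    rw [h3, hK]
    have h4 : (fun x : Fin n → ℝ => x + z) '' convexHull ℝ (range p) =
        convexHull ℝ ((fun x : Fin n → ℝ => x + z) '' range p) :=
      (AffineMap.image_convexHull
        ((AffineEquiv.vaddConst ℝ z : (Fin n → ℝ) ≃ᵃ[ℝ] (Fin n → ℝ)).toAffineMap) (range p))
    rw [h4, ← range_comp]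
    rfl

/-! ### forms for other files -/

/-- `S_mahler` of helper649 -/
theorem s_mahler (K : Set (Fin n → ℝ)) (hK : H801NS.NB K) :
    ENNReal.ofReal (((n : ℝ) + 1) ^ (n + 1) / (n.factorial : ℝ) ^ 2) ≤
      volume K * volume (H801NS.pol K) := by
  have hL : NB K := ⟨hK.comp, hK.conv, hK.zero⟩
  have h := (mahler0 hL).1
  have h1 : volume K ≠ ⊤ := hK.comp.measure_lt_top.ne
  have h2 : volume (pol K) ≠ ⊤ := (pol_bdd hL).measure_lt_top.ne
  have h3 : volume K * volume (H801NS.pol K) =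
      ENNReal.ofReal (volume.real K * volume.real (pol K)) := by
    rw [ENNReal.ofReal_mul measureReal_nonneg, Measure.real, Measure.real,
      ENNReal.ofReal_toReal h1, ENNReal.ofReal_toReal h2]
    rfl
  rw [h3]
  exact ENNReal.ofReal_le_ofReal h

/-- `S_eq` of helper649 -/
theorem s_eq (K : Set (Fin n → ℝ)) (hK : H801NS.NB K)
    (h : volume K * volume (H801NS.pol K) ≤
      ENNReal.ofReal (((n : ℝ) + 1) ^ (n + 1) / (n.factorial : ℝ) ^ 2)) :
    ∃ p : Fin (n + 1) → (Fin n → ℝ), AffineIndependent ℝ p ∧ K = convexHull ℝ (range p) := by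
  have hL : NB K := ⟨hK.comp, hK.conv, hK.zero⟩
  refine (mahler0 hL).2 ?_
  have h3 : volume.real K * volume.real (pol K) = (volume K * volume (H801NS.pol K)).toReal := by
    rw [ENNReal.toReal_mul]
    rfl
  rw [h3]
  exact (ENNReal.toReal_mono ENNReal.ofReal_ne_top h).trans
    (by rw [ENNReal.toReal_ofReal (by positivity)])

/-- `S_eq` of helper649, finset form -/
theorem s_eq' (K : Set (Fin n → ℝ)) (hK : H801NS.NB K)
    (h : volume K * volume (H801NS.pol K) ≤
      ENNReal.ofReal (((n : ℝ) + 1) ^ (n + 1) / (n.factorial : ℝ) ^ 2)) :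
    ∃ Q : Finset (Fin n → ℝ), Q.card ≤ n + 1 ∧ K = convexHull ℝ (Q : Set (Fin n → ℝ)) := by
  classical
  obtain ⟨p, -, hp⟩ := s_eq K hK h
  refine ⟨Finset.univ.image p, ?_, ?_⟩
  · exact Finset.card_image_le.trans (by simp)
  · rw [hp]
    congr 1
    ext x
    simp

end Pool.Agent.TH537.EQ
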