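import Pool.Agent.TH537.EQ.Inc

/-!
# Basic facts on truncated cones
-/

set_option autoImplicit false

open MeasureTheory Set Filter Topology
open scoped ENNReal Pointwise Matrix

namespace Pool.Agent.TH537.EQ

variable {N : ℕ} {C : Set (Fin N → ℝ)} {e c : Fin N → ℝ}

lemma dot_cont (e : Fin N → ℝ) : Continuous fun x : Fin N → ℝ => x ⬝ᵥ e := by
  unfold dotProduct; fun_prop

lemma CN.zero (hC : CN C) : (0 : Fin N → ℝ) ∈ C := by
  obtain ⟨x, hx⟩ := hC.int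
  have := hC.smul 0 le_rfl x (interior_subset hx)
  rwa [zero_smul] at this

lemma CN.add (hC : CN C) {x y : Fin N → ℝ} (hx : x ∈ C) (hy : y ∈ C) : x + y ∈ C := by
  have h := hC.convex (hC.smul 2 (by norm_num) x hx) (hC.smul 2 (by norm_num) y hy)
    (show (0:ℝ) ≤ 1 / 2 by norm_num) (show (0:ℝ) ≤ 1 / 2 by norm_num) (by norm_num)
  rw [smul_smul, smul_smul] at h
  norm_num at h
  exact h

lemma Pos.nonneg (hp : Pos C e) {x : Fin N → ℝ} (hx : x ∈ C) : 0 ≤ x ⬝ᵥ e := by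
  by_cases h : x = 0
  · rw [h, zero_dotProduct]
  · exact (hp x hx h).le

/-- `‖x‖ ≤ M ⟨x, e⟩` on the cone -/
lemma exists_bound (hC : CN C) (hp : Pos C e) : ∃ M : ℝ, 0 < M ∧ ∀ x ∈ C, ‖x‖ ≤ M * (x ⬝ᵥ e) := by
  set S : Set (Fin N → ℝ) := C ∩ Metric.sphere 0 1 with hS
  have hSc : IsCompact S := (isCompact_sphere _ _).inter_left hC.closed
  have key : ∃ m : ℝ, 0 < m ∧ ∀ x ∈ S, m ≤ x ⬝ᵥ e := by
    rcases S.eq_empty_or_nonempty with h | h
    · exact ⟨1, one_pos, fun x hx => by rw [h] at hx; exact absurd hx (notMem_empty x)⟩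
    · obtain ⟨x0, hx0, hmin⟩ := hSc.exists_isMinOn h (dot_cont e).continuousOn
      refine ⟨x0 ⬝ᵥ e, hp x0 hx0.1 ?_, fun x hx => hmin hx⟩
      intro h0
      have h1 := hx0.2
      rw [mem_sphere_zero_iff_norm, h0, norm_zero] at h1
      exact zero_ne_one h1
  obtain ⟨m, hm, hmS⟩ := key
  refine ⟨m⁻¹, inv_pos.2 hm, fun x hx => ?_⟩
  by_cases h0 : x = 0
  · rw [h0, norm_zero, zero_dotProduct, mul_zero]
  · have hn : 0 < ‖x‖ := norm_pos_iff.2 h0
    have h1 : ‖x‖⁻¹ • x ∈ S := by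
      refine ⟨hC.smul _ (inv_nonneg.2 hn.le) _ hx, ?_⟩
      rw [mem_sphere_zero_iff_norm, norm_smul, norm_inv, norm_norm, inv_mul_cancel₀ hn.ne']
    have h2 := hmS _ h1
    rw [smul_dotProduct, smul_eq_mul] at h2
    rw [inv_mul_eq_div, le_div_iff₀ hm]
    calc ‖x‖ * m ≤ ‖x‖ * (‖x‖⁻¹ * (x ⬝ᵥ e)) := by gcongr
      _ = x ⬝ᵥ e := by rw [← mul_assoc, mul_inv_cancel₀ hn.ne', one_mul]

lemma T_compact (hC : CN C) (hp : Pos C e) : IsCompact (T C e) := by
  obtain ⟨M, hM, hb⟩ := exists_bound hC hp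
  refine Metric.isCompact_of_isClosed_isBounded
    (hC.closed.inter (isClosed_le (dot_cont e) continuous_const)) ?_
  refine (Metric.isBounded_closedBall (x := (0 : Fin N → ℝ)) (r := M)).subset fun x hx => ?_
  rw [mem_closedBall_zero_iff]
  calc ‖x‖ ≤ M * (x ⬝ᵥ e) := hb x hx.1
    _ ≤ M * 1 := by gcongr; exact hx.2
    _ = M := mul_one M

lemma T_convex (hC : CN C) : Convex ℝ (T C e) := by
  refine hC.convex.inter ?_
  intro x hx y hy a b ha hb hab
  have hx' : x ⬝ᵥ e ≤ 1 := hx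
  have hy' : y ⬝ᵥ e ≤ 1 := hy
  show (a • x + b • y) ⬝ᵥ e ≤ 1
  rw [add_dotProduct, smul_dotProduct, smul_dotProduct, smul_eq_mul, smul_eq_mul]
  calc a * (x ⬝ᵥ e) + b * (y ⬝ᵥ e) ≤ a * 1 + b * 1 := by gcongr
    _ = 1 := by linarith

lemma zero_mem_T (hC : CN C) : (0 : Fin N → ℝ) ∈ T C e :=
  ⟨hC.zero, by rw [zero_dotProduct]; exact zero_le_one⟩

lemma T_int (hC : CN C) (hp : Pos C e) : (interior (T C e)).Nonempty := by
  obtain ⟨x, hx⟩ := hC.int
  have h0 : 0 ≤ x ⬝ᵥ e := hp.nonneg (interior_subset hx)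
  refine ⟨(x ⬝ᵥ e + 1)⁻¹ • x, mem_interior.2
    ⟨interior C ∩ {y | y ⬝ᵥ e < 1}, fun y hy => ⟨interior_subset hy.1, le_of_lt hy.2⟩,
      isOpen_interior.inter (isOpen_lt (dot_cont e) continuous_const), ?_, ?_⟩⟩
  · exact hC.smul_interior (by positivity) hx
  · show ((x ⬝ᵥ e + 1)⁻¹ • x) ⬝ᵥ e < 1
    rw [smul_dotProduct, smul_eq_mul, inv_mul_lt_iff₀ (by positivity)]
    linarith

lemma T_pos (hC : CN C) (hp : Pos C e) : 0 < volume.real (T C e) := by
  rw [Measure.real, ENNReal.toReal_pos_iff]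
  exact ⟨lt_of_lt_of_le (isOpen_interior.measure_pos volume (T_int hC hp))
    (measure_mono interior_subset), (T_compact hC hp).measure_lt_top⟩

lemma HT_bdd (hC : CN C) (hp : Pos C e) (u : ℝ) : Bornology.IsBounded (HT C e u) :=
  isBounded_convexHull.2 (((T_compact hC hp).isBounded.smul₀ _).union
    ((T_compact hC hp).isBounded.smul₀ _))

lemma HT_lt_top (hC : CN C) (hp : Pos C e) (u : ℝ) : volume (HT C e u) < ⊤ :=
  (HT_bdd hC hp u).measure_lt_top

lemma smul_T_sub (u : ℝ) : (1 - u) • T C e ⊆ HT C e u :=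
  subset_union_left.trans (subset_convexHull ℝ _)

/-- `(1-u)^N |T| ≤ |HT u|` -/
lemma HT_ge (hC : CN C) (hp : Pos C e) {u : ℝ} (hu : u ≤ 1) :
    (1 - u) ^ N * volume.real (T C e) ≤ volume.real (HT C e u) := by
  have h1 : volume.real ((1 - u) • T C e) = (1 - u) ^ N * volume.real (T C e) := by
    rw [Measure.real, Measure.real, Measure.addHaar_smul, Module.finrank_pi, Fintype.card_fin,
      ENNReal.toReal_mul, ENNReal.toReal_ofReal (abs_nonneg _),
      abs_of_nonneg (pow_nonneg (by linarith) N)]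
  rw [← h1]
  exact measureReal_mono (smul_T_sub u) (HT_lt_top hC hp u).ne

end Pool.Agent.TH537.EQ
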