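import Pool.Agent.TH537.EQ.Basic

/-!
# Mahler's inequality for cones with the case of equality, from the pieces
-/

set_option autoImplicit false

open MeasureTheory Set Filter Topology
open scoped ENNReal Pointwise Matrix

namespace Pool.Agent.TH537.EQ

theorem t_EQC (hI : S_INC) (hE : S_E2C) (hD : S_DU) (hR : S_RS) (hL : S_LC) : S_EQC := by
  intro N C e c hN hC hp hc hce
  obtain ⟨hC', hp', he', hdd⟩ := hD N C e c hC hp hc
  have hec : e ⬝ᵥ c = 1 := by rw [dotProduct_comm]; exact hce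
  set V : ℝ := volume.real (OI C c) with hV
  set V' : ℝ := volume.real (OI (dl C) e) with hV'
  set χ : ℝ := N.factorial * volume.real (T C e) with hχ
  set χ' : ℝ := N.factorial * volume.real (T (dl C) c) with hχ'
  have hχ0 : 0 < χ := mul_pos (by positivity) (T_pos hC hp)
  have hχ'0 : 0 < χ' := mul_pos (by positivity) (T_pos hC' hp')
  have hNR : (0 : ℝ) < (N : ℝ) ^ N := pow_pos (by exact_mod_cast hN) N
  -- the two E2 inequalities
  have hE1 : ∀ u : ℝ, 0 < u → u < 1 → 1 ≤ V * (N.factorial * volume.real (HT (dl C) c u)) := by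
    intro u h0 h1
    have := hE N C e c u hC hp hc h0 h1
    rw [← hV] at this
    linarith
  have hE2 : ∀ u : ℝ, 0 < u → u < 1 → 1 ≤ V' * (N.factorial * volume.real (HT C e u)) := by
    intro u h0 h1
    have := hE N (dl C) c e u hC' hp' he' h0 h1
    rw [← hV', hdd] at this
    linarith
  have hV0 : 0 < V := by
    have h := hE1 (1 / 2) (by norm_num) (by norm_num)
    by_contra hcon
    push Not at hcon
    have h2 : (0:ℝ) ≤ N.factorial * volume.real (HT (dl C) c (1 / 2)) := by positivity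
    nlinarith
  have hV'0 : 0 < V' := by
    have h := hE2 (1 / 2) (by norm_num) (by norm_num)
    by_contra hcon
    push Not at hcon
    have h2 : (0:ℝ) ≤ N.factorial * volume.real (HT C e (1 / 2)) := by positivity
    nlinarith
  have hI1 : ∀ u : ℝ, 0 < u → u < 1 → V'⁻¹ ≤ N.factorial * volume.real (HT C e u) := by
    intro u h0 h1
    rw [inv_le_iff_one_le_mul₀ hV'0, mul_comm]
    linarith [hE2 u h0 h1]
  have hI2 : ∀ u : ℝ, 0 < u → u < 1 → V⁻¹ ≤ N.factorial * volume.real (HT (dl C) c u) := by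
    intro u h0 h1
    rw [inv_le_iff_one_le_mul₀ hV0, mul_comm]
    linarith [hE1 u h0 h1]
  -- the second inequality in the basic form
  have hB : (N : ℝ) ^ N * (V' * V⁻¹) ≤ χ' ^ 2 := by
    have h := hI N (dl C) c e hN hC' hp' he' hec V⁻¹ V⁻¹ (1 / 2) (by norm_num) (by norm_num)
      (inv_pos.2 hV0) le_rfl hI2 (fun u h0 h1 => hI2 u h0 (by linarith))
    rw [← Real.rpow_add (inv_pos.2 hV0), sub_add_cancel, Real.rpow_one] at h
    exact h
  have hA : (N : ℝ) ^ N * (V * V'⁻¹) ≤ χ ^ 2 := by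
    have h := hI N C e c hN hC hp hc hce V'⁻¹ V'⁻¹ (1 / 2) (by norm_num) (by norm_num)
      (inv_pos.2 hV'0) le_rfl hI1 (fun u h0 h1 => hI1 u h0 (by linarith))
    rw [← Real.rpow_add (inv_pos.2 hV'0), sub_add_cancel, Real.rpow_one] at h
    exact h
  refine ⟨?_, fun heq => ?_⟩
  · have h1 : ((N : ℝ) ^ N) ^ 2 ≤ (χ * χ') ^ 2 := by
      calc ((N : ℝ) ^ N) ^ 2 = ((N : ℝ) ^ N * (V * V'⁻¹)) * ((N : ℝ) ^ N * (V' * V⁻¹)) := by
            field_simp
        _ ≤ χ ^ 2 * χ' ^ 2 := by gcongr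
        _ = (χ * χ') ^ 2 := by ring
    exact (sq_le_sq₀ hNR.le (by positivity)).1 h1
  · refine hL N C e hC hp (hR N C e hC hp ?_)
    by_contra hcon
    push Not at hcon
    -- strict inequality
    set J : ℝ := N.factorial * volume.real (HT C e (1 / 2)) with hJ
    have hJχ : J < χ := by
      have h1 : volume.real (HT C e (1 / 2)) < volume.real (T C e) :=
        (ENNReal.toReal_lt_toReal (HT_lt_top hC hp _).ne (T_compact hC hp).measure_lt_top.ne).2 hcon
      exact mul_lt_mul_of_pos_left h1 (by positivity)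
    have haJ : V'⁻¹ ≤ J := hI1 (1 / 2) (by norm_num) (by norm_num)
    have ha0 : 0 < V'⁻¹ := inv_pos.2 hV'0
    set a : ℝ := V'⁻¹ with ha
    set b : ℝ := (a + χ) / 2 with hb
    have hab : a < b := by rw [hb]; linarith
    have hbχ : b < χ := by rw [hb]; linarith
    have hb0 : 0 < b := ha0.trans hab
    -- a small interval
    have hlim : Tendsto (fun u : ℝ => (1 - u) ^ N * χ) (𝓝[>] 0) (𝓝 χ) := by
      have h1 : Tendsto (fun u : ℝ => (1 - u) ^ N * χ) (𝓝 0) (𝓝 ((1 - 0) ^ N * χ)) := by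
        refine Continuous.tendsto ?_ 0
        fun_prop
      rw [sub_zero, one_pow, one_mul] at h1
      exact h1.mono_left nhdsWithin_le_nhds
    have hev := (hlim.eventually (lt_mem_nhds hbχ)).and
      (Ioo_mem_nhdsGT (show (0:ℝ) < 1 by norm_num))
    obtain ⟨t, ht1, ht2⟩ := hev.exists
    have hbt : ∀ u : ℝ, 0 < u → u < t → b ≤ N.factorial * volume.real (HT C e u) := by
      intro u h0 h1
      have h2 := HT_ge hC hp (u := u) (by linarith [ht2.2])
      have h3 : (1 - t) ^ N ≤ (1 - u) ^ N := pow_le_pow_left₀ (by linarith [ht2.2]) (by linarith) N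
      calc b ≤ (1 - t) ^ N * χ := ht1.le
        _ ≤ (1 - u) ^ N * χ := by gcongr
        _ = N.factorial * ((1 - u) ^ N * volume.real (T C e)) := by rw [hχ]; ring
        _ ≤ _ := by gcongr
    have h := hI N C e c hN hC hp hc hce a b t ht2.1 ht2.2 ha0 hab.le hI1 hbt
    have h4 : ((N : ℝ) ^ N * (V * (a ^ (1 - t) * b ^ t))) * ((N : ℝ) ^ N * (V' * V⁻¹)) ≤
        χ ^ 2 * χ' ^ 2 := by gcongr
    have h5 : χ ^ 2 * χ' ^ 2 = ((N : ℝ) ^ N) ^ 2 := by rw [← heq]; ring
    rw [h5] at h4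
    have h6 : ((N : ℝ) ^ N * (V * (a ^ (1 - t) * b ^ t))) * ((N : ℝ) ^ N * (V' * V⁻¹)) =
        ((N : ℝ) ^ N) ^ 2 * (V' * (a ^ (1 - t) * b ^ t)) := by field_simp
    rw [h6] at h4
    have h7 : V' * (a ^ (1 - t) * b ^ t) ≤ 1 := by
      by_contra hc2
      push Not at hc2
      have : ((N : ℝ) ^ N) ^ 2 * 1 < ((N : ℝ) ^ N) ^ 2 * (V' * (a ^ (1 - t) * b ^ t)) :=
        mul_lt_mul_of_pos_left hc2 (by positivity)
      linarith
    have h8 : a < a ^ (1 - t) * b ^ t := by
      calc a = a ^ (1 - t) * a ^ t := by rw [← Real.rpow_add ha0, sub_add_cancel, Real.rpow_one]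
        _ < a ^ (1 - t) * b ^ t := by
          have := Real.rpow_lt_rpow ha0.le hab ht2.1
          have h9 := Real.rpow_pos_of_pos ha0 (1 - t)
          exact mul_lt_mul_of_pos_left this h9
    have h9 : V' * a = 1 := mul_inv_cancel₀ hV'0.ne'
    have h10 : V' * a < V' * (a ^ (1 - t) * b ^ t) := mul_lt_mul_of_pos_left h8 hV'0
    linarith

end Pool.Agent.TH537.EQ
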