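import Pool.Agent.TH537.EQ.Defs

/-!
# The averaged inequality for cones from the one for bodies (tensor powers)
-/

set_option autoImplicit false

open MeasureTheory Set Filter Topology
open scoped ENNReal Pointwise Matrix

namespace Pool.Agent.TH537.EQ

lemma CN.smul_eq {N : ℕ} {C : Set (Fin N → ℝ)} (hC : CN C) {t : ℝ} (ht : 0 < t) : t • C = C := by
  ext x
  rw [mem_smul_set_iff_inv_smul_mem₀ ht.ne']
  constructor
  · intro h
    have := hC.smul t ht.le _ h
    rwa [smul_inv_smul₀ ht.ne'] at this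
  · intro h
    exact hC.smul _ (inv_nonneg.2 ht.le) _ h

lemma CN.smul_interior {N : ℕ} {C : Set (Fin N → ℝ)} (hC : CN C) {t : ℝ} (ht : 0 < t)
    {x : Fin N → ℝ} (hx : x ∈ interior C) : t • x ∈ interior C := by
  have h1 : t • x ∈ t • interior C := smul_mem_smul_set hx
  rwa [← interior_smul₀ ht.ne', hC.smul_eq ht] at h1

lemma OI_smul {N : ℕ} {C : Set (Fin N → ℝ)} (hC : CN C) {t : ℝ} (ht : 0 < t) (c : Fin N → ℝ) :
    OI C (t • c) = t • OI C c := by
  ext x
  rw [mem_smul_set_iff_inv_smul_mem₀ ht.ne']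
  have h1 : ∀ y : Fin N → ℝ, y ∈ C ↔ t⁻¹ • y ∈ C := by
    intro y
    constructor
    · intro h; exact hC.smul _ (inv_nonneg.2 ht.le) _ h
    · intro h
      have := hC.smul t ht.le _ h
      rwa [smul_inv_smul₀ ht.ne'] at this
  unfold OI
  simp only [mem_ofPred_eq]
  rw [h1 x, h1 (t • c - x), smul_sub, inv_smul_smul₀ ht.ne']

lemma vol_OI_smul {N : ℕ} {C : Set (Fin N → ℝ)} (hC : CN C) {t : ℝ} (ht : 0 < t)
    (c : Fin N → ℝ) : volume.real (OI C (t • c)) = t ^ N * volume.real (OI C c) := by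
  rw [OI_smul hC ht, Measure.real, Measure.real, Measure.addHaar_smul, Module.finrank_pi,
    Fintype.card_fin, ENNReal.toReal_mul, ENNReal.toReal_ofReal (abs_nonneg _),
    abs_of_pos (pow_pos ht N)]

/-- subexponential growth -/
lemma le_one_of_pow_le {x A : ℝ} {B : ℕ}
    (h : ∀ m : ℕ, 1 ≤ m → x ^ m ≤ A * (m : ℝ) ^ B) : x ≤ 1 := by
  by_contra hcon
  push Not at hcon
  have h1 := tendsto_pow_const_div_const_pow_of_one_lt B hcon
  have h2 := h1.const_mul A
  rw [mul_zero] at h2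
  have h3 : ∀ᶠ m : ℕ in atTop, A * ((m : ℝ) ^ B / x ^ m) < 1 := h2.eventually_lt_const one_pos
  obtain ⟨m, hm1, hm2⟩ := (h3.and (eventually_ge_atTop 1)).exists
  have h4 := h m hm2
  have h5 : (0 : ℝ) < x ^ m := pow_pos (by linarith) m
  rw [← mul_div_assoc, div_lt_one h5] at hm1
  linarith

lemma fact_ge (n : ℕ) : (n : ℝ) ^ n * Real.exp (-n) ≤ n.factorial := by
  have h := Real.pow_div_factorial_le_exp (n : ℝ) (Nat.cast_nonneg n) n
  have h1 : (0 : ℝ) < n.factorial := by positivity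
  rw [div_le_iff₀ h1] at h
  rw [Real.exp_neg, ← div_eq_mul_inv, div_le_iff₀ (Real.exp_pos _)]
  linarith

theorem t_INC {P : ℕ → ℝ} {A : ℝ} {B : ℕ} (hP : ∀ k : ℕ, P k ≤ A * ((k : ℝ) + 1) ^ B)
    (h1 : S_INB P) (h2 : S_SEC) (h3 : S_POW) : S_INC := by
  intro N C e c hN hC hp hc hce a b t ht0 ht1 ha hab hau hbu
  set V : ℝ := volume.real (OI C c) with hV
  set χ : ℝ := N.factorial * volume.real (T C e) with hχ
  have hV0 : 0 ≤ V := measureReal_nonneg
  have hχ0 : 0 ≤ χ := by positivity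
  have hb : 0 < b := lt_of_lt_of_le ha hab
  set G : ℝ := a ^ (1 - t) * b ^ t with hG
  have hG0 : 0 < G := mul_pos (Real.rpow_pos_of_pos ha _) (Real.rpow_pos_of_pos hb _)
  have hNR : (1 : ℝ) ≤ N := by exact_mod_cast hN
  -- the key inequality for the powers
  have key : ∀ m : ℕ, 1 ≤ m → ((N : ℝ) ^ N * (V * G)) ^ m ≤
      (Real.exp 1 * (A * ((m : ℝ) * N) ^ B) * ((m : ℝ) * N) ^ 2) * (χ ^ 2) ^ m := by
    intro m hm
    have hmR : (1 : ℝ) ≤ m := by exact_mod_cast hm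
    have hm0 : (0 : ℝ) < m := by linarith
    obtain ⟨k, hk⟩ : ∃ k, m * N = k + 1 := ⟨m * N - 1, by
      have : 1 ≤ m * N := Nat.mul_pos hm hN
      omega⟩
    have hpow : ∀ M : ℕ, M = m * N → ∃ (D : Set (Fin M → ℝ)) (f d : Fin M → ℝ), CN D ∧
        Pos D f ∧ d ∈ interior D ∧ d ⬝ᵥ f = m * (c ⬝ᵥ e) ∧
        volume.real (OI D d) = volume.real (OI C c) ^ m ∧
        M.factorial * volume.real (T D f) = (N.factorial * volume.real (T C e)) ^ m ∧
        ∀ u : ℝ, 0 ≤ u → u ≤ 1 →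
          M.factorial * volume.real (HT D f u) = (N.factorial * volume.real (HT C e u)) ^ m := by
      rintro M rfl
      exact h3 N m C e c hC hp hc
    obtain ⟨D, f, d, hD, hDf, hd, hdf, hDV, hDT, hDH⟩ := hpow (k + 1) hk.symm
    rw [hce, mul_one] at hdf
    set d' := (m : ℝ)⁻¹ • d with hd'
    have hd'i : d' ∈ interior D := hD.smul_interior (inv_pos.2 hm0) hd
    have hd'f : d' ⬝ᵥ f = 1 := by
      rw [hd', smul_dotProduct, hdf, smul_eq_mul, inv_mul_cancel₀ hm0.ne']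
    obtain ⟨K, δ, hK, hδ, hK1, hK2, hK3⟩ := h2 k D f d' hD hDf hd'i hd'f
    rw [hd', vol_OI_smul hD (inv_pos.2 hm0), hDV, ← hV] at hK1
    rw [← hχ] at hDT
    set F : ℝ := ((k + 1).factorial : ℝ) with hF
    have hF0 : 0 < F := by rw [hF]; positivity
    have hKv : volume.real K = (k + 1) * χ ^ m / (F * δ) := by
      rw [eq_div_iff (by positivity)]
      calc volume.real K * (F * δ) = F * (δ * volume.real K) := by ring
        _ = F * ((k + 1) * volume.real (T D f)) := by rw [hK2]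
        _ = (k + 1) * (F * volume.real (T D f)) := by ring
        _ = _ := by rw [hDT]
    have hHU : ∀ u : ℝ, 0 ≤ u → u ≤ 1 →
        (N.factorial * volume.real (HT C e u)) ^ m / (F * δ) ≤ volume.real (HU K u) := by
      intro u hu0 hu1
      rw [div_le_iff₀ (by positivity), ← hDH u hu0 hu1]
      calc F * volume.real (HT D f u) ≤ F * (δ * volume.real (HU K u)) := by
            gcongr; exact hK3 u hu0 hu1
        _ = _ := by ring
    have h4 := h1 k K hK (a ^ m / (F * δ)) (b ^ m / (F * δ)) t ht0 ht1 (by positivity)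
      (by gcongr)
      (fun u hu0 hu1 => le_trans (by gcongr; exact hau u hu0 hu1) (hHU u hu0.le hu1.le))
      (fun u hu0 hut => le_trans (by gcongr; exact hbu u hu0 hut)
        (hHU u hu0.le (hut.trans ht1).le))
    have e1 : (a ^ m / (F * δ)) ^ (1 - t) * (b ^ m / (F * δ)) ^ t = G ^ m / (F * δ) := by
      have hFd : 0 < F * δ := by positivity
      rw [Real.div_rpow (by positivity) hFd.le, Real.div_rpow (by positivity) hFd.le,
        div_mul_div_comm, ← Real.rpow_add hFd, sub_add_cancel, Real.rpow_one, hG, mul_pow]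
      congr 2
      · rw [← Real.rpow_natCast, ← Real.rpow_natCast, ← Real.rpow_mul ha.le, ← Real.rpow_mul ha.le,
          mul_comm]
      · rw [← Real.rpow_natCast, ← Real.rpow_natCast, ← Real.rpow_mul hb.le, ← Real.rpow_mul hb.le,
          mul_comm]
    rw [e1, hKv] at h4
    -- `(m⁻¹)^(k+1) V^m ≤ δ |HH K|`
    have h5 : ((m : ℝ)⁻¹) ^ (k + 1) * V ^ m * (G ^ m / (F * δ)) ≤
        δ * (P k * Real.exp (-k) * ((k + 1) * χ ^ m / (F * δ)) ^ 2) := by
      calc ((m : ℝ)⁻¹) ^ (k + 1) * V ^ m * (G ^ m / (F * δ))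
          ≤ (δ * volume.real (HH K)) * (G ^ m / (F * δ)) := by gcongr
        _ = δ * (volume.real (HH K) * (G ^ m / (F * δ))) := by ring
        _ ≤ _ := by gcongr
    have h6 : (V * G) ^ m * F ≤
        P k * Real.exp (-k) * (((k : ℝ) + 1) ^ 2 * (χ ^ 2) ^ m) * (m : ℝ) ^ (k + 1) := by
      have h7 := mul_le_mul_of_nonneg_left h5 (show (0:ℝ) ≤ (m : ℝ) ^ (k + 1) * (F ^ 2 * δ) by
        positivity)
      have l1 : (m : ℝ) ^ (k + 1) * (F ^ 2 * δ) *
          (((m : ℝ)⁻¹) ^ (k + 1) * V ^ m * (G ^ m / (F * δ))) = (V * G) ^ m * F := by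
        rw [inv_pow, mul_pow V G m]
        field_simp
      have l2 : (m : ℝ) ^ (k + 1) * (F ^ 2 * δ) *
          (δ * (P k * Real.exp (-k) * ((k + 1) * χ ^ m / (F * δ)) ^ 2)) =
          P k * Real.exp (-k) * (((k : ℝ) + 1) ^ 2 * (χ ^ 2) ^ m) * (m : ℝ) ^ (k + 1) := by
        rw [← pow_mul, mul_comm 2 m, pow_mul χ m 2]
        field_simp
      rwa [l1, l2] at h7
    have h8 := fact_ge (k + 1)
    rw [← hF] at h8
    have hkR : ((k : ℝ) + 1) = m * N := by exact_mod_cast hk.symm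
    have h9 : (V * G) ^ m * (((k + 1 : ℕ) : ℝ) ^ (k + 1) * Real.exp (-((k + 1 : ℕ) : ℝ))) ≤
        P k * Real.exp (-k) * (((k : ℝ) + 1) ^ 2 * (χ ^ 2) ^ m) * (m : ℝ) ^ (k + 1) :=
      le_trans (by gcongr) h6
    have e2 : Real.exp (-k) = Real.exp 1 * Real.exp (-((k + 1 : ℕ) : ℝ)) := by
      rw [← Real.exp_add]; congr 1; push_cast; ring
    have e3 : (((k + 1 : ℕ) : ℝ)) ^ (k + 1) = (m : ℝ) ^ (k + 1) * ((N : ℝ) ^ N) ^ m := by
      have : (((k + 1 : ℕ) : ℝ)) = m * N := by push_cast; exact hkR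
      rw [this, mul_pow, ← pow_mul, ← hk, mul_comm N m]
    rw [e2, e3] at h9
    have hpos : 0 < (m : ℝ) ^ (k + 1) * Real.exp (-((k + 1 : ℕ) : ℝ)) := by positivity
    have h10 : (m : ℝ) ^ (k + 1) * Real.exp (-((k + 1 : ℕ) : ℝ)) *
        (((N : ℝ) ^ N * (V * G)) ^ m) ≤ (m : ℝ) ^ (k + 1) * Real.exp (-((k + 1 : ℕ) : ℝ)) *
        (Real.exp 1 * P k * ((k : ℝ) + 1) ^ 2 * (χ ^ 2) ^ m) := by
      calc _ = (V * G) ^ m * ((m : ℝ) ^ (k + 1) * ((N : ℝ) ^ N) ^ m *
            Real.exp (-((k + 1 : ℕ) : ℝ))) := by rw [mul_pow]; ring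
        _ ≤ _ := h9
        _ = _ := by ring
    have h11 := le_of_mul_le_mul_left h10 hpos
    refine h11.trans ?_
    have h12 := hP k
    rw [hkR] at h12 ⊢
    gcongr
  -- conclusion
  rcases hχ0.eq_or_lt with hz | hz
  · have := key 1 le_rfl
    rw [← hz] at this ⊢
    simpa using this
  · have hx : (N : ℝ) ^ N * (V * G) / χ ^ 2 ≤ 1 := by
      refine le_one_of_pow_le (A := Real.exp 1 * A * (N : ℝ) ^ B * (N : ℝ) ^ 2) (B := B + 2)
        fun m hm => ?_
      rw [div_pow, div_le_iff₀ (by positivity)]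
      refine (key m hm).trans (le_of_eq ?_)
      rw [mul_pow, mul_pow, pow_add]
      ring
    rwa [div_le_one (by positivity)] at hx

end Pool.Agent.TH537.EQ
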